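import Pool.Agent.W880.PS.Data

set_option autoImplicit false

open MeasureTheory Set Metric Filter Topology
open scoped ContDiff

noncomputable section

namespace Pool.Agent.W880.PS

open Pool.Agent.W787.PS

theorem nsq_contOn {f : ℂ → ℝ} {U : Set ℂ} (hU : IsOpen U) (hf : ContDiffOn ℝ 1 f U) :
    ContinuousOn (nsq f) U := by
  have h := hf.continuousOn_fderiv_of_isOpen hU (le_refl _)
  unfold nsq
  exact ((h.clm_apply continuousOn_const).pow 2).add ((h.clm_apply continuousOn_const).pow 2)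

theorem nsq_three {a b c : ℂ → ℝ} {x : ℂ} {lam : ℝ} (ha : DifferentiableAt ℝ a x)
    (hb : DifferentiableAt ℝ b x) (hc : DifferentiableAt ℝ c x) :
    nsq (fun z => a z - lam * b z + c z) x ≤ 3 * (nsq a x + lam ^ 2 * nsq b x + nsq c x) := by
  have h : ∀ v, fderiv ℝ (fun z => a z - lam * b z + c z) x v =
      fderiv ℝ a x v - lam * fderiv ℝ b x v + fderiv ℝ c x v := by
    intro v
    have e1 : HasFDerivAt (fun z => a z - lam * b z + c z)
        (fderiv ℝ a x - lam • fderiv ℝ b x + fderiv ℝ c x) x :=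
      (ha.hasFDerivAt.sub (hb.hasFDerivAt.const_mul lam)).add hc.hasFDerivAt
    rw [e1.fderiv]
    simp
  have key : ∀ p q r : ℝ, (p - lam * q + r) ^ 2 ≤ 3 * (p ^ 2 + lam ^ 2 * q ^ 2 + r ^ 2) := by
    intro p q r
    nlinarith [sq_nonneg (p + lam * q), sq_nonneg (p - r), sq_nonneg (lam * q + r)]
  unfold nsq
  rw [h, h]
  have k1 := key (fderiv ℝ a x 1) (fderiv ℝ b x 1) (fderiv ℝ c x 1)
  have k2 := key (fderiv ℝ a x Complex.I) (fderiv ℝ b x Complex.I) (fderiv ℝ c x Complex.I)
  linarith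

theorem avg_le {f q v : ℂ → ℝ} {c B1 A1 : ℝ}
    (hf : ∀ z ∈ ball (0 : ℂ) (1 / 2), f z = q z + v z)
    (hq : ContinuousOn q (closedBall 0 1)) (hqb : ∀ z ∈ closedBall (0 : ℂ) 1, |q z| ≤ B1)
    (hv : IntegrableOn (fun z => |v z - c|) (ball (0 : ℂ) (1 / 2)))
    (hvc : ContinuousOn v (ball (0 : ℂ) (1 / 2)))
    (hvA : ∫ z in ball (0 : ℂ) (1 / 2), |v z - c| ≤ A1) :
    |avg f 0 (1 / 2) - c| ≤ B1 + 4 / Real.pi * A1 := by
  have hsub : ball (0 : ℂ) (1 / 2) ⊆ closedBall 0 1 :=
    (ball_subset_ball (by norm_num)).trans ball_subset_closedBall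
  have hvol : volume.real (ball (0 : ℂ) (1 / 2)) = Real.pi / 4 := by
    rw [Measure.real, Complex.volume_ball]
    rw [ENNReal.toReal_mul, ENNReal.toReal_pow, ENNReal.toReal_ofReal (by norm_num)]
    simp
    ring
  have hqi : IntegrableOn q (ball (0 : ℂ) (1 / 2)) :=
    (hq.integrableOn_compact (isCompact_closedBall (0 : ℂ) 1)).mono_set hsub
  have hvi : IntegrableOn (fun z => v z - c) (ball (0 : ℂ) (1 / 2)) := by
    refine hv.mono' ((hvc.sub continuousOn_const).aestronglyMeasurable measurableSet_ball) ?_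
    exact ae_of_all _ fun z => le_refl _
  have i12 : IntegrableOn (fun z => q z + (v z - c)) (ball (0 : ℂ) (1 / 2)) := hqi.add hvi
  have e1 : avg f 0 (1 / 2) - c = 4 / Real.pi * ∫ z in ball (0 : ℂ) (1 / 2), (q z + (v z - c)) := by
    unfold avg
    have e2 : ∫ x in ball (0 : ℂ) (1 / 2), f x =
        (∫ z in ball (0 : ℂ) (1 / 2), (q z + (v z - c))) + Real.pi / 4 * c := by
      have i3 : IntegrableOn (fun _ : ℂ => c) (ball (0 : ℂ) (1 / 2)) :=
        integrableOn_const measure_ball_lt_top.ne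
      have e3 : ∫ x in ball (0 : ℂ) (1 / 2), f x =
          ∫ z in ball (0 : ℂ) (1 / 2), ((q z + (v z - c)) + c) := by
        refine setIntegral_congr_fun measurableSet_ball fun z hz => ?_
        rw [hf z hz]
        ring
      rw [e3, integral_add i12 i3, setIntegral_const, hvol, smul_eq_mul]
    rw [e2]
    have := Real.pi_pos
    field_simp
    ring
  rw [e1, abs_mul, abs_of_pos (by positivity)]
  have e4 : |∫ z in ball (0 : ℂ) (1 / 2), (q z + (v z - c))| ≤ Real.pi / 4 * B1 + A1 := by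
    refine (abs_integral_le_integral_abs).trans ?_
    calc ∫ z in ball (0 : ℂ) (1 / 2), |q z + (v z - c)|
        ≤ ∫ z in ball (0 : ℂ) (1 / 2), (B1 + |v z - c|) := by
          refine setIntegral_mono_on i12.abs ?_ measurableSet_ball ?_
          · exact Integrable.add (integrableOn_const measure_ball_lt_top.ne) hv
          · intro z hz
            refine (abs_add_le _ _).trans ?_
            have := hqb z (hsub hz)
            linarith
      _ = Real.pi / 4 * B1 + ∫ z in ball (0 : ℂ) (1 / 2), |v z - c| := by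
          have i3 : IntegrableOn (fun _ : ℂ => B1) (ball (0 : ℂ) (1 / 2)) :=
            integrableOn_const measure_ball_lt_top.ne
          rw [integral_add i3 hv, setIntegral_const, hvol, smul_eq_mul]
      _ ≤ _ := by linarith
  have hp := Real.pi_pos
  calc 4 / Real.pi * |∫ z in ball (0 : ℂ) (1 / 2), (q z + (v z - c))|
      ≤ 4 / Real.pi * (Real.pi / 4 * B1 + A1) :=
        mul_le_mul_of_nonneg_left e4 (by positivity)
    _ = B1 + 4 / Real.pi * A1 := by
        field_simp

theorem data (h1 : S_LOC) (h2 : S_FRI) (h3 : S_POTI) (h4 : S_POTD) (h5 : S_SMO) (h6 : S_GIP) :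
    S_DATA := by
  intro M _ _ _ _ _ X κ d hD h lam A hh hh0 hlam hA
  obtain ⟨ζ, C0, hC0, hζ, hζs, h01, hone, hloc⟩ := h1
  obtain ⟨CF, hCF, hF⟩ := h2
  obtain ⟨cd, Cd, hcd, hd⟩ := hD.d_bd
  have h08 : (0 : ℂ) ∈ ball (0 : ℂ) 8 := mem_ball_self (by norm_num)
  have hCd : 0 < Cd := lt_of_lt_of_le hcd ((hd 0 h08).1.trans (hd 0 h08).2)
  have hdpos : ∀ z ∈ ball (0 : ℂ) 8, 0 < d z := fun z hz => lt_of_lt_of_le hcd (hd z hz).1
  have hk : ContDiffOn ℝ ∞ (h ∘ κ) (ball 0 8) := hD.smooth h hh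
  have hsub1 : closedBall (0 : ℂ) 1 ⊆ ball 0 8 := closedBall_subset_ball (by norm_num)
  have hsub1' : ball (0 : ℂ) 1 ⊆ ball 0 8 := ball_subset_ball (by norm_num)
  obtain ⟨D, hDd⟩ : ∃ D : ℂ → ℝ, D = fun y => ζ y * d y := ⟨_, rfl⟩
  have hDs : ContDiff ℝ ∞ D := by rw [hDd]; exact ext_smooth hζ hζs hD.d_smooth
  have hDt : tsupport D ⊆ ball (0 : ℂ) 4 := by rw [hDd]; exact ts_mul hζs
  have hpD : ContDiff ℝ 1 (pot D) :=
    (h4 D (hDs.of_le (by exact_mod_cast le_top)) (cs_of hDt)).1
  obtain ⟨q, hq⟩ : ∃ q : ℂ → ℝ, q = fun z => Real.log (lam * h (κ z) * d z) := ⟨_, rfl⟩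
  have hqs : ContDiffOn ℝ ∞ q (ball 0 8) := by
    rw [hq]
    refine ContDiffOn.log ((contDiffOn_const.mul hk).mul hD.d_smooth) ?_
    intro z hz
    have a1 := hh0 (κ z)
    have a2 := hdpos z hz
    have a3 : 0 < lam * h (κ z) * d z := by positivity
    exact a3.ne'
  have hq1 : ContDiffOn ℝ 1 q (ball 0 8) := hqs.of_le (by exact_mod_cast le_top)
  obtain ⟨M1, hM1⟩ := (isCompact_closedBall (0 : ℂ) 1).exists_bound_of_continuousOn
    (nsq_cont hpD).continuousOn
  obtain ⟨M2, hM2⟩ := (isCompact_closedBall (0 : ℂ) 1).exists_bound_of_continuousOn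
    ((nsq_contOn isOpen_ball hq1).mono hsub1)
  obtain ⟨M3, hM3⟩ := (isCompact_closedBall (0 : ℂ) 1).exists_bound_of_continuousOn
    (hqs.continuousOn.mono hsub1)
  have hM10 : 0 ≤ M1 := (norm_nonneg _).trans (hM1 0 (mem_closedBall_self (by norm_num)))
  have hM20 : 0 ≤ M2 := (norm_nonneg _).trans (hM2 0 (mem_closedBall_self (by norm_num)))
  obtain ⟨Kf, hKf⟩ : ∃ Kf : ℝ, Kf = Real.sqrt (1 + 64 * CF * Cd) := ⟨_, rfl⟩
  have hKf0 : 0 < Kf := by rw [hKf]; positivity
  refine ⟨Real.sqrt (3 * ((C0 * (A / cd)) ^ 2 + lam ^ 2 * M1 + M2)), C0 * Kf,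
    M3 + 4 / Real.pi * (A / cd), Real.sqrt_nonneg _, by positivity, ?_⟩
  intro u ε c hε hε1 hu hAu
  have hv : ContDiffOn ℝ ∞ (u ∘ κ) (ball 0 8) := hD.smooth u hu.smooth
  obtain ⟨P, hP⟩ : ∃ P : ℂ → ℝ, P = fun z => lam * h (κ z) * Real.exp (u (κ z)) * d z := ⟨_, rfl⟩
  have hPs : ContDiffOn ℝ ∞ P (ball 0 8) := by
    rw [hP]
    exact ((contDiffOn_const.mul hk).mul hv.exp).mul hD.d_smooth
  have hPpos : ∀ z ∈ ball (0 : ℂ) 8, 0 < P z := by
    intro z hz
    rw [hP]
    have a1 := hh0 (κ z)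
    have a2 := hdpos z hz
    positivity
  obtain ⟨F, hFd⟩ : ∃ F : ℂ → ℝ, F = fun z => lam * h (κ z) * Real.exp (u (κ z)) * d z - lam * d z :=
    ⟨_, rfl⟩
  have hFs : ContDiffOn ℝ ∞ F (ball 0 8) := by
    rw [hFd]
    have := hPs.sub (contDiffOn_const.mul hD.d_smooth : ContDiffOn ℝ ∞ (fun z => lam * d z) (ball 0 8))
    rw [hP] at this
    exact this
  obtain ⟨hA4i, hA4⟩ := L1_le h5 hD hcd (fun z hz => (hd z hz).1) hu.smooth
    (by norm_num : (4 : ℝ) ≤ 8) hAu
  obtain ⟨hA2i, hA2⟩ := L1_le h5 hD hcd (fun z hz => (hd z hz).1) hu.smooth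
    (by norm_num : (1 / 2 : ℝ) ≤ 8) hAu
  obtain ⟨g0, w, hg0, hw, hg0n, hg0c, hwe, heq⟩ := hloc (u ∘ κ) F c (A / cd) (ε * Kf) hv hFs
    (by positivity) hA4 (by
      intro φ hφ hφt
      have := test_le h5 hD hF hCd.le (fun z hz => (hd z hz).2) hh hε hu hφ hφt
      rw [hFd, hKf]
      exact this)
  obtain ⟨ρ, hρ⟩ : ∃ ρ : ℂ → ℝ, ρ = fun y => ζ y * P y := ⟨_, rfl⟩
  have hρs : ContDiff ℝ ∞ ρ := by rw [hρ]; exact ext_smooth hζ hζs hPs
  have hρt : tsupport ρ ⊆ ball (0 : ℂ) 4 := by rw [hρ]; exact ts_mul hζs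
  have hρ0 : ∀ x, 0 ≤ ρ x := by
    intro x
    by_cases hx : x ∈ ball (0 : ℂ) 8
    · rw [hρ]
      exact mul_nonneg (h01 x).1 (hPpos x hx).le
    · rw [zero_of (hρt.trans (ball_subset_ball (by norm_num))) hx]
  have hρ1 : ∀ z ∈ ball (0 : ℂ) 1, ρ z = P z := by
    intro z hz
    rw [hρ]
    simp only
    rw [hone z (closedBall_subset_closedBall (by norm_num) (ball_subset_closedBall hz)), one_mul]
  have hPq : ∀ z ∈ ball (0 : ℂ) 1, P z = Real.exp (q z + u (κ z)) := by
    intro z hz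
    have a1 := hh0 (κ z)
    have a2 := hdpos z (hsub1' hz)
    rw [Real.exp_add, hq, hP]
    simp only
    rw [Real.exp_log (by positivity)]
    ring
  refine ⟨ρ, fun z => g0 z - lam * pot D z + q z, w, ?_, ?_, ?_⟩
  · refine
      { diff := hρs.of_le (by exact_mod_cast le_top)
        supp := cs_of hρt
        nonneg := hρ0
        mass := ?_
        g_diff := ?_
        g_grad := ?_
        w_diff := hw.contDiffOn
        w_int := ?_
        w_en := ?_
        eq := ?_ }
    · obtain ⟨m1, m2⟩ := mass_le h5 hD hh hh0 hu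
      have hPi : IntegrableOn P (ball (0 : ℂ) 8) := by
        have : IntegrableOn (fun z => lam * (h (κ z) * Real.exp (u (κ z)) * d z)) (ball (0 : ℂ) 8) :=
          m1.const_mul lam
        refine IntegrableOn.congr_fun this ?_ measurableSet_ball
        intro z _
        rw [hP]
        ring
      have hρi : Integrable ρ := hρs.continuous.integrable_of_hasCompactSupport (cs_of hρt)
      calc ∫ x, ρ x = ∫ x in ball (0 : ℂ) 8, ρ x := by
            refine (setIntegral_eq_integral_of_forall_compl_eq_zero fun z hz => ?_).symm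
            exact zero_of (hρt.trans (ball_subset_ball (by norm_num))) hz
        _ ≤ ∫ x in ball (0 : ℂ) 8, P x := by
            refine setIntegral_mono_on hρi.integrableOn hPi measurableSet_ball ?_
            intro z hz
            rw [hρ]
            exact mul_le_of_le_one_left (hPpos z hz).le (h01 z).2
        _ = lam * ∫ z in ball (0 : ℂ) 8, h (κ z) * Real.exp (u (κ z)) * d z := by
            rw [← integral_const_mul]
            refine setIntegral_congr_fun measurableSet_ball fun z _ => ?_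
            rw [hP]
            simp only
            ring
        _ ≤ lam * 1 := mul_le_mul_of_nonneg_left m2 hlam.le
        _ = lam := mul_one _
    · exact (hg0.sub (contDiffOn_const.mul hpD.contDiffOn)).add (hq1.mono hsub1')
    · intro x hx
      have b0 : DifferentiableAt ℝ g0 x :=
        (hg0.differentiableOn one_ne_zero).differentiableAt (isOpen_ball.mem_nhds hx)
      have b1 : DifferentiableAt ℝ (pot D) x := (hpD.differentiable one_ne_zero).differentiableAt
      have b2 : DifferentiableAt ℝ q x :=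
        (hq1.differentiableOn one_ne_zero).differentiableAt (isOpen_ball.mem_nhds (hsub1' hx))
      refine (nsq_three b0 b1 b2).trans ?_
      rw [Real.sq_sqrt (by positivity)]
      have c0 := hg0n x hx
      have c1 := (le_abs_self _).trans (hM1 x (ball_subset_closedBall hx))
      have c2 := (le_abs_self _).trans (hM2 x (ball_subset_closedBall hx))
      have c3 := mul_le_mul_of_nonneg_left c1 (sq_nonneg lam)
      linarith
    · exact ((nsq_cont hw).continuousOn.integrableOn_compact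
        (isCompact_closedBall (0 : ℂ) 1)).mono_set ball_subset_closedBall
    · refine hwe.trans (le_of_eq ?_)
      ring
    · intro x hx
      have e1 := heq x hx
      have e2 : pot (fun y => ζ y * F y) x = pot ρ x - lam * pot D x := by
        rw [← pot_sub h3 hρs.continuous (cs_of hρt) hDs.continuous (cs_of hDt)]
        congr 1
        funext y
        rw [hFd, hρ, hDd, hP]
        ring
      rw [e2] at e1
      simp only [Function.comp_apply] at e1
      rw [hρ1 x hx, hPq x hx, e1]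
      congr 1
      ring
  · intro z hz
    rw [hρ1 z hz, hP]
  · refine avg_le (q := q) (v := u ∘ κ) ?_ (hqs.continuousOn.mono hsub1) hM3 hA2i
      (hv.continuousOn.mono (ball_subset_ball (by norm_num))) hA2
    intro z hz
    have hz1 : z ∈ ball (0 : ℂ) 1 := ball_subset_ball (by norm_num) hz
    rw [hρ1 z hz1, hPq z hz1, Real.log_exp]
    rfl

end Pool.Agent.W880.PS
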