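import Pool.Agent.W880.PS.Locw

set_option autoImplicit false

open MeasureTheory Set Metric Filter Topology
open scoped ContDiff

noncomputable section

namespace Pool.Agent.W880.PS

open Pool.Agent.W787.PS

/-- a second cutoff -/
theorem exists_cut : ∃ θ : ℂ → ℝ, ContDiff ℝ ∞ θ ∧ tsupport θ ⊆ ball (0 : ℂ) 2 ∧
    (∀ x, 0 ≤ θ x ∧ θ x ≤ 1) ∧ ∀ x ∈ closedBall (0 : ℂ) 1, θ x = 1 := by
  let b : ContDiffBump (0 : ℂ) := ⟨1, 3 / 2, by norm_num, by norm_num⟩
  refine ⟨b, b.contDiff, ?_, fun x => ⟨b.nonneg, b.le_one⟩, fun x hx => b.one_of_mem_closedBall hx⟩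
  rw [b.tsupport_eq]
  exact closedBall_subset_ball (by norm_num)

/-- from `N ≤ ε C √N` to `N ≤ (ε C)²` -/
theorem sq_of_le {N a : ℝ} (hN : 0 ≤ N) (ha : 0 ≤ a) (h : N ≤ a * Real.sqrt N) : N ≤ a ^ 2 := by
  have h1 : Real.sqrt N ≤ a := by
    rcases (Real.sqrt_nonneg N).eq_or_lt with h0 | h0
    · rw [← h0]; exact ha
    · have h2 : Real.sqrt N * Real.sqrt N ≤ a * Real.sqrt N := by
        rw [Real.mul_self_sqrt hN]; exact h
      exact le_of_mul_le_mul_right h2 h0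
  rw [← Real.sq_sqrt hN]
  exact pow_le_pow_left₀ (Real.sqrt_nonneg _) h1 2

theorem int_of {g : ℂ → ℝ} {R : ℝ} (hg : Continuous g) (h : ∀ x ∉ ball (0 : ℂ) R, g x = 0) :
    Integrable g := by
  refine hg.integrable_of_hasCompactSupport ?_
  refine HasCompactSupport.of_support_subset_isCompact (isCompact_closedBall (0 : ℂ) R) ?_
  intro x hx
  by_contra hcon
  exact hx (h x fun hb => hcon (ball_subset_closedBall hb))

theorem locw (h1 : S_POTD) (h2 : S_POTW) (h3 : S_POTI) : S_LOCW := by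
  intro ζ hζ hζs h01 hone
  obtain ⟨C1, hC1, hgrad⟩ := gradψ h1 h3 hζ hζs h01
  obtain ⟨θ, hθ, hθs, hθ01, hθ1⟩ := exists_cut
  have hθc1 : ContDiff ℝ 1 θ := hθ.of_le (by exact_mod_cast le_top)
  obtain ⟨B, hB, hBx⟩ := nsq_bdd hθc1 (cs_of hθs)
  refine ⟨Real.sqrt (8 + 12 * (B * C1)), by positivity, ?_⟩
  intro f ε hf hε hfun
  obtain ⟨F, hF⟩ : ∃ F : ℂ → ℝ, F = fun y => ζ y * f y := ⟨_, rfl⟩
  rw [← hF]
  have hFs : ContDiff ℝ ∞ F := by rw [hF]; exact ext_smooth hζ hζs hf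
  have hFt : tsupport F ⊆ ball (0 : ℂ) 4 := by rw [hF]; exact ts_mul hζs
  have hF1 : ContDiff ℝ 1 F := hFs.of_le (by exact_mod_cast le_top)
  obtain ⟨w, hw⟩ : ∃ w : ℂ → ℝ, w = pot F := ⟨_, rfl⟩
  have hws : ContDiff ℝ ∞ w := by rw [hw]; exact pot_smooth h1 hFs (cs_of hFt)
  have hw1 : ContDiff ℝ 1 w := hws.of_le (by exact_mod_cast le_top)
  rw [← hw]
  refine ⟨hw1, ?_⟩
  -- (i)
  obtain ⟨φ, hφ⟩ : ∃ φ : ℂ → ℝ, φ = fun y => ζ y * w y := ⟨_, rfl⟩
  have hφs : ContDiff ℝ ∞ φ := by rw [hφ]; exact hζ.mul hws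
  have hφt : tsupport φ ⊆ ball (0 : ℂ) 4 := by rw [hφ]; exact ts_mul hζs
  have hpφ : ContDiff ℝ ∞ (pot φ) := pot_smooth h1 hφs (cs_of hφt)
  obtain ⟨N, hN⟩ : ∃ N : ℝ, N = ∫ x, ζ x * w x ^ 2 := ⟨_, rfl⟩
  have hN0 : 0 ≤ N := by
    rw [hN]
    exact integral_nonneg fun x => mul_nonneg (h01 x).1 (sq_nonneg _)
  have hNi : Integrable (fun x => ζ x * w x ^ 2) := by
    refine int_of (R := 4) (hζ.continuous.mul (hws.continuous.pow 2)) ?_
    intro x hx
    rw [zero_of hζs hx, zero_mul]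
  have hNφ : ∫ x, φ x ^ 2 ≤ N := by
    rw [hN]
    refine integral_mono (int_of (R := 4) (hφs.continuous.pow 2) ?_) hNi ?_
    · intro x hx
      rw [zero_of hφt hx]; norm_num
    · intro x
      have := h01 x
      rw [hφ]
      simp only
      rw [mul_pow]
      refine mul_le_mul_of_nonneg_right ?_ (sq_nonneg _)
      nlinarith
  have hNe : N = ∫ x, f x * (ζ x * pot φ x) := by
    have e1 := pot_symm hFs.continuous hFt hφs.continuous hφt
    have e2 : N = ∫ x, φ x * pot F x := by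
      rw [hN]
      refine integral_congr_ae (ae_of_all _ fun x => ?_)
      simp only
      rw [hφ, ← hw]
      ring
    rw [e2, e1]
    refine integral_congr_ae (ae_of_all _ fun x => ?_)
    simp only
    rw [hF]
    ring
  have hb := hfun (fun x => ζ x * pot φ x) (hζ.mul hpφ)
    ((ts_mul hζs).trans (ball_subset_ball (by norm_num)))
  have hg := hgrad φ hφs hφt
  have hN2 : N ≤ (ε * Real.sqrt C1) ^ 2 := by
    refine sq_of_le hN0 (by positivity) ?_
    calc N = ∫ x, f x * (ζ x * pot φ x) := hNe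
      _ ≤ |∫ x, f x * (ζ x * pot φ x)| := le_abs_self _
      _ ≤ ε * Real.sqrt (∫ x, nsq (fun x => ζ x * pot φ x) x) := hb
      _ ≤ ε * Real.sqrt (C1 * N) := by
          refine mul_le_mul_of_nonneg_left (Real.sqrt_le_sqrt ?_) hε
          exact hg.trans (mul_le_mul_of_nonneg_left hNφ hC1.le)
      _ = ε * Real.sqrt C1 * Real.sqrt N := by rw [Real.sqrt_mul hC1.le]; ring
  have hN3 : N ≤ C1 * ε ^ 2 := by
    rw [mul_pow, Real.sq_sqrt hC1.le] at hN2
    linarith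
  -- (ii)
  obtain ⟨η, hη⟩ : ∃ η : ℂ → ℝ, η = fun y => θ y ^ 2 * w y := ⟨_, rfl⟩
  have hηs : ContDiff ℝ ∞ η := by rw [hη]; exact (hθ.pow 2).mul hws
  have hη1 : ContDiff ℝ 1 η := hηs.of_le (by exact_mod_cast le_top)
  have hηt : tsupport η ⊆ ball (0 : ℂ) 2 := by
    have : η = fun y => θ y * (θ y * w y) := by rw [hη]; funext y; ring
    rw [this]
    exact ts_mul hθs
  have hdθ : ∀ x, DifferentiableAt ℝ θ x := fun x => (hθc1.differentiable one_ne_zero).differentiableAt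
  have hdw : ∀ x, DifferentiableAt ℝ w x := fun x => (hw1.differentiable one_ne_zero).differentiableAt
  have hfdη : ∀ x v, fderiv ℝ η x v = θ x ^ 2 * fderiv ℝ w x v + 2 * θ x * w x * fderiv ℝ θ x v := by
    intro x v
    rw [hη]
    have e1 : fderiv ℝ (fun y => θ y ^ 2 * w y) x =
        θ x ^ 2 • fderiv ℝ w x + w x • fderiv ℝ (fun y => θ y ^ 2) x :=
      fderiv_fun_mul ((hdθ x).pow 2) (hdw x)
    have e2 : fderiv ℝ (fun y => θ y ^ 2) x = (2 * θ x) • fderiv ℝ θ x := by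
      have := fderiv_fun_pow 2 (hdθ x)
      rw [this]
      simp
    rw [e1, e2]
    simp only [ContinuousLinearMap.add_apply, ContinuousLinearMap.smul_apply, smul_eq_mul]
    ring
  have hlow : ∀ x, (1 / 2) * (θ x ^ 2 * nsq w x) - 2 * (w x ^ 2 * nsq θ x) ≤ gdot w η x := by
    intro x
    unfold gdot nsq
    rw [hfdη, hfdη]
    nlinarith [sq_nonneg (θ x * fderiv ℝ w x 1 + 2 * w x * fderiv ℝ θ x 1),
      sq_nonneg (θ x * fderiv ℝ w x Complex.I + 2 * w x * fderiv ℝ θ x Complex.I)]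
  have hupp : ∀ x, nsq η x ≤ 2 * (θ x ^ 2 * nsq w x) + 8 * (w x ^ 2 * nsq θ x) := by
    intro x
    have hθx := hθ01 x
    have hθ2 : θ x ^ 2 ≤ 1 := by nlinarith
    have key : ∀ p q : ℝ, (θ x ^ 2 * p + 2 * θ x * w x * q) ^ 2 ≤
        2 * (θ x ^ 2 * p ^ 2) + 8 * (w x ^ 2 * q ^ 2) := by
      intro p q
      have e1 : (θ x ^ 2 * p + 2 * θ x * w x * q) ^ 2 ≤
          2 * (θ x ^ 2 * p) ^ 2 + 2 * (2 * θ x * w x * q) ^ 2 := by
        nlinarith [sq_nonneg (θ x ^ 2 * p - 2 * θ x * w x * q)]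
      have e2 : (θ x ^ 2 * p) ^ 2 ≤ θ x ^ 2 * p ^ 2 := by
        have : (θ x ^ 2 * p) ^ 2 = θ x ^ 2 * (θ x ^ 2 * p ^ 2) := by ring
        rw [this]
        exact mul_le_of_le_one_left (by positivity) hθ2
      have e3 : (2 * θ x * w x * q) ^ 2 ≤ 4 * (w x ^ 2 * q ^ 2) := by
        have : (2 * θ x * w x * q) ^ 2 = θ x ^ 2 * (4 * (w x ^ 2 * q ^ 2)) := by ring
        rw [this]
        exact mul_le_of_le_one_left (by positivity) hθ2
      linarith
    unfold nsq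
    rw [hfdη, hfdη]
    have k1 := key (fderiv ℝ w x 1) (fderiv ℝ θ x 1)
    have k2 := key (fderiv ℝ w x Complex.I) (fderiv ℝ θ x Complex.I)
    linarith
  have hwc := nsq_cont hw1
  have hθn := nsq_cont hθc1
  have i1 : Integrable (fun x => θ x ^ 2 * nsq w x) := by
    refine int_of (R := 2) ((hθ.continuous.pow 2).mul hwc) ?_
    intro x hx
    rw [zero_of hθs hx]; ring
  have i2 : Integrable (fun x => w x ^ 2 * nsq θ x) := by
    refine int_of (R := 2) ((hws.continuous.pow 2).mul hθn) ?_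
    intro x hx
    rw [nsq_zero fun h => hx (hθs h), mul_zero]
  have i3 : Integrable (gdot w η) := by
    refine int_of (R := 2) (gdot_cont hw1 hη1) ?_
    intro x hx
    exact gdot_zero fun h => hx (hηt h)
  have i4 : Integrable (nsq η) := by
    refine int_of (R := 2) (nsq_cont hη1) ?_
    intro x hx
    exact nsq_zero fun h => hx (hηt h)
  obtain ⟨E2, hE2⟩ : ∃ E2 : ℝ, E2 = ∫ x, θ x ^ 2 * nsq w x := ⟨_, rfl⟩
  obtain ⟨N2, hN2'⟩ : ∃ N2 : ℝ, N2 = ∫ x, w x ^ 2 * nsq θ x := ⟨_, rfl⟩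
  have hE20 : 0 ≤ E2 := by
    rw [hE2]; exact integral_nonneg fun x => mul_nonneg (sq_nonneg _) (nsq_nonneg _ _)
  have hN20 : 0 ≤ N2 := by
    rw [hN2']; exact integral_nonneg fun x => mul_nonneg (sq_nonneg _) (nsq_nonneg _ _)
  have q1 : (1 / 2) * E2 - 2 * N2 ≤ ∫ x, gdot w η x := by
    have i5 : Integrable (fun x => (1 / 2) * (θ x ^ 2 * nsq w x)) := i1.const_mul _
    have i6 : Integrable (fun x => 2 * (w x ^ 2 * nsq θ x)) := i2.const_mul _
    have i56 : Integrable (fun x => (1 / 2) * (θ x ^ 2 * nsq w x) - 2 * (w x ^ 2 * nsq θ x)) :=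
      i5.sub i6
    have := integral_mono i56 i3 hlow
    rw [integral_sub i5 i6, integral_const_mul, integral_const_mul, ← hE2, ← hN2'] at this
    exact this
  have q2 : ∫ x, nsq η x ≤ 2 * E2 + 8 * N2 := by
    have i5 : Integrable (fun x => 2 * (θ x ^ 2 * nsq w x)) := i1.const_mul _
    have i6 : Integrable (fun x => 8 * (w x ^ 2 * nsq θ x)) := i2.const_mul _
    have i56 : Integrable (fun x => 2 * (θ x ^ 2 * nsq w x) + 8 * (w x ^ 2 * nsq θ x)) :=
      i5.add i6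
    have := integral_mono i4 i56 hupp
    rw [integral_add i5 i6, integral_const_mul, integral_const_mul, ← hE2, ← hN2'] at this
    exact this
  have q3 : ∫ x, gdot w η x = ∫ x, f x * η x := by
    rw [hw, h2 F η hF1 (cs_of hFt) hη1 (cs_of hηt)]
    refine integral_congr_ae (ae_of_all _ fun x => ?_)
    simp only
    by_cases hx : x ∈ ball (0 : ℂ) 2
    · rw [hF]
      simp only
      rw [hone x (ball_subset_closedBall hx), one_mul]
    · rw [zero_of hηt hx, mul_zero, mul_zero]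
  have q4 : ∫ x, f x * η x ≤ ε * Real.sqrt (2 * E2 + 8 * N2) := by
    refine (le_abs_self _).trans ((hfun η hηs (hηt.trans (ball_subset_ball (by norm_num)))).trans ?_)
    exact mul_le_mul_of_nonneg_left (Real.sqrt_le_sqrt q2) hε
  have q5 : ε * Real.sqrt (2 * E2 + 8 * N2) ≤ 2 * ε ^ 2 + (2 * E2 + 8 * N2) / 8 := by
    have hs := Real.sq_sqrt (by positivity : 0 ≤ 2 * E2 + 8 * N2)
    nlinarith [sq_nonneg (4 * ε - Real.sqrt (2 * E2 + 8 * N2))]
  have q6 : E2 ≤ 8 * ε ^ 2 + 12 * N2 := by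
    rw [q3] at q1
    linarith
  have q7 : N2 ≤ B * N := by
    rw [hN2', hN, ← integral_const_mul]
    refine integral_mono i2 (hNi.const_mul B) ?_
    intro x
    simp only
    by_cases hx : x ∈ ball (0 : ℂ) 2
    · rw [hone x (ball_subset_closedBall hx), one_mul]
      have := mul_le_mul_of_nonneg_left (hBx x) (sq_nonneg (w x))
      linarith
    · rw [nsq_zero fun h => hx (hθs h), mul_zero]
      exact mul_nonneg hB.le (mul_nonneg (h01 x).1 (sq_nonneg _))
  have q8 : ∫ x in ball (0 : ℂ) 1, nsq w x ≤ E2 := by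
    rw [hE2]
    calc ∫ x in ball (0 : ℂ) 1, nsq w x = ∫ x in ball (0 : ℂ) 1, θ x ^ 2 * nsq w x := by
          refine setIntegral_congr_fun measurableSet_ball fun x hx => ?_
          rw [hθ1 x (ball_subset_closedBall hx)]
          ring
      _ ≤ ∫ x, θ x ^ 2 * nsq w x :=
          setIntegral_le_integral i1 (ae_of_all _ fun x => mul_nonneg (sq_nonneg _) (nsq_nonneg _ _))
  have q9 : B * N ≤ B * (C1 * ε ^ 2) := mul_le_mul_of_nonneg_left hN3 hB.le
  rw [mul_pow, Real.sq_sqrt (by positivity)]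
  nlinarith

end Pool.Agent.W880.PS
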