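import Pool.Agent.W880.PS.LocwMain

set_option autoImplicit false

open MeasureTheory Set Metric Filter Topology
open scoped ContDiff

noncomputable section

namespace Pool.Agent.W880.PS

open Pool.Agent.W787.PS

section Surf

variable {M : Type} [TopologicalSpace M] [MeasurableSpace M] (X : ClosedSurface M)

theorem gip_zero {u Φ : M → ℝ} {x : M} (h : ∀ᶠ y in 𝓝 x, Φ y = 0) : X.gip u Φ x = 0 := by
  have hx : x ∈ (X.chart (X.idx x)).source := Classical.choose_spec (X.cover x)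
  have hx' : X.chart (X.idx x) x ∈ (X.chart (X.idx x)).target := (X.chart (X.idx x)).map_source hx
  have h1 : Tendsto (X.chart (X.idx x)).symm (𝓝 (X.chart (X.idx x) x)) (𝓝 x) := by
    have := (X.chart (X.idx x)).symm.continuousAt (x := X.chart (X.idx x) x) hx'
    rw [ContinuousAt, (X.chart (X.idx x)).left_inv hx] at this
    exact this
  have h2 : (Φ ∘ (X.chart (X.idx x)).symm) =ᶠ[𝓝 (X.chart (X.idx x) x)] fun _ => 0 := h1.eventually h
  unfold ClosedSurface.gip gdot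
  rw [h2.fderiv_eq]
  simp

variable [T2Space M] [CompactSpace M] [BorelSpace M]

omit [T2Space M] in
theorem int_cont {f : M → ℝ} (hf : Continuous f) : Integrable f X.vol := by
  haveI : IsFiniteMeasure X.vol := ⟨by rw [X.vol_univ]; exact ENNReal.one_lt_top⟩
  exact hf.integrable_of_hasCompactSupport (HasCompactSupport.of_compactSpace f)

variable {X} {κ : ℂ → M} {d : ℂ → ℝ}

omit [T2Space M] [CompactSpace M] in
theorem meas_img (hD : IsDisc X κ d) {r : ℝ} (hr : r ≤ 8) : MeasurableSet (κ '' ball 0 r) :=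
  (hD.isOpen _ isOpen_ball (ball_subset_ball hr)).measurableSet

omit [T2Space M] [CompactSpace M] in
theorem int_transfer (hD : IsDisc X κ d) {f : M → ℝ} (hf : ∀ x, x ∉ κ '' ball 0 8 → f x = 0) :
    ∫ x, f x ∂X.vol = ∫ z in ball (0 : ℂ) 8, f (κ z) * d z := by
  rw [← (hD.intg f (ball 0 8) measurableSet_ball (Subset.refl _)).2,
    setIntegral_eq_integral_of_forall_compl_eq_zero hf]

omit [CompactSpace M] [MeasurableSpace M] [BorelSpace M] in
theorem far (hD : ContinuousOn κ (ball 0 8)) {φ : ℂ → ℝ} {Φ : M → ℝ} (hφc : HasCompactSupport φ)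
    (hφ : tsupport φ ⊆ ball (0 : ℂ) 8) (hΦ : ∀ x, x ∉ κ '' tsupport φ → Φ x = 0) {x : M}
    (hx : x ∉ κ '' ball 0 8) : ∀ᶠ y in 𝓝 x, Φ y = 0 := by
  have h1 : IsCompact (κ '' tsupport φ) := hφc.isCompact.image_of_continuousOn (hD.mono hφ)
  have h2 : x ∉ κ '' tsupport φ := fun h => hx (image_mono hφ h)
  filter_upwards [h1.isClosed.isOpen_compl.mem_nhds h2] with y hy
  exact hΦ y hy

/-- identity for test functions -/
theorem test_id (h5 : S_SMO) (hD : IsDisc X κ d) {h : M → ℝ} {lam : ℝ}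
    {u : M → ℝ} (hh : X.Smooth h) (hus : X.Smooth u) {φ : ℂ → ℝ} (hφ : ContDiff ℝ ∞ φ)
    (hφt : tsupport φ ⊆ ball (0 : ℂ) 8) {Φ : M → ℝ} (hΦs : X.Smooth Φ)
    (hΦκ : ∀ z ∈ ball (0 : ℂ) 8, Φ (κ z) = φ z) (hΦ0 : ∀ x, x ∉ κ '' tsupport φ → Φ x = 0) :
    X.dir u Φ + lam * ∫ x, Φ x ∂X.vol - lam * ∫ x, h x * Real.exp (u x) * Φ x ∂X.vol =
      (∫ x, gdot (u ∘ κ) φ x) -
        (∫ x, (lam * h (κ x) * Real.exp (u (κ x)) * d x - lam * d x) * φ x) := by
  have hφc : HasCompactSupport φ := cs_of hφt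
  have hfar : ∀ x, x ∉ κ '' ball 0 8 → ∀ᶠ y in 𝓝 x, Φ y = 0 := fun x hx =>
    far hD.cont hφc hφt hΦ0 hx
  have hΦ00 : ∀ x, x ∉ κ '' ball 0 8 → Φ x = 0 := fun x hx => (hfar x hx).self_of_nhds
  have hc := h5 M X
  have hΦc : Continuous Φ := hc.1 Φ hΦs
  have hhc : Continuous h := hc.1 h hh
  have huc : Continuous u := hc.1 u hus
  -- the Dirichlet part
  have e1 : X.dir u Φ = ∫ x, gdot (u ∘ κ) φ x := by
    unfold ClosedSurface.dir
    rw [int_transfer hD fun x hx => gip_zero X (hfar x hx)]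
    have : ∫ z in ball (0 : ℂ) 8, X.gip u Φ (κ z) * d z = ∫ z in ball (0 : ℂ) 8, gdot (u ∘ κ) φ z := by
      refine setIntegral_congr_fun measurableSet_ball fun z hz => ?_
      rw [hD.gip u Φ hus hΦs z hz]
      unfold gdot
      have e : (Φ ∘ κ) =ᶠ[𝓝 z] φ := by
        filter_upwards [isOpen_ball.mem_nhds hz] with y hy
        exact hΦκ y hy
      rw [e.fderiv_eq]
    rw [this]
    refine setIntegral_eq_integral_of_forall_compl_eq_zero fun z hz => ?_
    exact gdot_zero fun hz' => hz (hφt hz')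
  have i1 := int_cont X hΦc
  have i2 : Integrable (fun x => h x * Real.exp (u x) * Φ x) X.vol :=
    int_cont X (by fun_prop)
  have j1 := ((hD.intg Φ (ball 0 8) measurableSet_ball (Subset.refl _)).1).1 i1.integrableOn
  have j2 := ((hD.intg (fun x => h x * Real.exp (u x) * Φ x) (ball 0 8) measurableSet_ball
    (Subset.refl _)).1).1 i2.integrableOn
  have e2 : ∫ x, Φ x ∂X.vol = ∫ z in ball (0 : ℂ) 8, Φ (κ z) * d z := int_transfer hD hΦ00
  have e3 : ∫ x, h x * Real.exp (u x) * Φ x ∂X.vol =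
      ∫ z in ball (0 : ℂ) 8, h (κ z) * Real.exp (u (κ z)) * Φ (κ z) * d z :=
    int_transfer hD fun x hx => by rw [hΦ00 x hx, mul_zero]
  have e4 : lam * (∫ z in ball (0 : ℂ) 8, Φ (κ z) * d z) -
      lam * ∫ z in ball (0 : ℂ) 8, h (κ z) * Real.exp (u (κ z)) * Φ (κ z) * d z =
      - ∫ x, (lam * h (κ x) * Real.exp (u (κ x)) * d x - lam * d x) * φ x := by
    have e5 : ∫ x, -((lam * h (κ x) * Real.exp (u (κ x)) * d x - lam * d x) * φ x) =
        ∫ x in ball (0 : ℂ) 8, -((lam * h (κ x) * Real.exp (u (κ x)) * d x - lam * d x) * φ x) := by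
      refine (setIntegral_eq_integral_of_forall_compl_eq_zero fun z hz => ?_).symm
      rw [zero_of hφt hz]
      ring
    rw [← integral_const_mul, ← integral_const_mul,
      ← integral_sub (j1.const_mul _) (j2.const_mul _), ← integral_neg, e5]
    refine setIntegral_congr_fun measurableSet_ball fun z hz => ?_
    rw [hΦκ z hz]
    ring
  rw [e1, e2, e3, add_sub_assoc, e4, ← sub_eq_add_neg]

theorem h1_id (hD : IsDisc X κ d) {φ : ℂ → ℝ}
    (hφt : tsupport φ ⊆ ball (0 : ℂ) 8) {Φ : M → ℝ} (hΦs : X.Smooth Φ)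
    (hΦκ : ∀ z ∈ ball (0 : ℂ) 8, Φ (κ z) = φ z) (hΦ0 : ∀ x, x ∉ κ '' tsupport φ → Φ x = 0) :
    X.h1sq Φ = (∫ z in ball (0 : ℂ) 8, φ z ^ 2 * d z) + ∫ x, nsq φ x := by
  have hφc : HasCompactSupport φ := cs_of hφt
  have hfar : ∀ x, x ∉ κ '' ball 0 8 → ∀ᶠ y in 𝓝 x, Φ y = 0 := fun x hx =>
    far hD.cont hφc hφt hΦ0 hx
  have hΦ00 : ∀ x, x ∉ κ '' ball 0 8 → Φ x = 0 := fun x hx => (hfar x hx).self_of_nhds
  unfold ClosedSurface.h1sq
  congr 1
  · rw [int_transfer hD fun x hx => by rw [hΦ00 x hx]; norm_num]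
    refine setIntegral_congr_fun measurableSet_ball fun z hz => ?_
    rw [hΦκ z hz]
  · unfold ClosedSurface.dir
    rw [int_transfer hD fun x hx => gip_zero X (hfar x hx)]
    have : ∫ z in ball (0 : ℂ) 8, X.gip Φ Φ (κ z) * d z = ∫ z in ball (0 : ℂ) 8, nsq φ z := by
      refine setIntegral_congr_fun measurableSet_ball fun z hz => ?_
      rw [hD.gip Φ Φ hΦs hΦs z hz]
      unfold gdot nsq
      have e : (Φ ∘ κ) =ᶠ[𝓝 z] φ := by
        filter_upwards [isOpen_ball.mem_nhds hz] with y hy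
        exact hΦκ y hy
      rw [e.fderiv_eq]
      ring
    rw [this]
    refine setIntegral_eq_integral_of_forall_compl_eq_zero fun z hz => ?_
    exact nsq_zero fun hz' => hz (hφt hz')

/-- the estimate for test functions -/
theorem test_le (h5 : S_SMO) (hD : IsDisc X κ d) {CF Cd : ℝ}
    (hF : ∀ (u : ℂ → ℝ) (a : ℂ) (R : ℝ), 0 < R → ContDiff ℝ 1 u →
      tsupport u ⊆ closedBall a R → ∫ x, u x ^ 2 ≤ CF * R ^ 2 * ∫ x, nsq u x)
    (hCd : 0 ≤ Cd) (hd : ∀ z ∈ ball (0 : ℂ) 8, d z ≤ Cd) {h : M → ℝ} {lam ε : ℝ}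
    {u : M → ℝ} (hh : X.Smooth h) (hε : 0 ≤ ε) (hu : PSb X h lam ε u) {φ : ℂ → ℝ}
    (hφ : ContDiff ℝ ∞ φ) (hφt : tsupport φ ⊆ ball (0 : ℂ) 8) :
    |(∫ x, gdot (u ∘ κ) φ x) -
        (∫ x, (lam * h (κ x) * Real.exp (u (κ x)) * d x - lam * d x) * φ x)| ≤
      ε * Real.sqrt (1 + 64 * CF * Cd) * Real.sqrt (∫ x, nsq φ x) := by
  obtain ⟨Φ, hΦs, hΦκ, hΦ0⟩ := hD.ext φ hφ hφt
  have hφ1 : ContDiff ℝ 1 φ := hφ.of_le (by exact_mod_cast le_top)
  rw [← test_id h5 hD hh hu.smooth hφ hφt hΦs hΦκ hΦ0]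
  refine (hu.bd Φ hΦs).trans ?_
  rw [mul_assoc]
  refine mul_le_mul_of_nonneg_left ?_ hε
  have hn : 0 ≤ ∫ x, nsq φ x := integral_nonneg fun x => nsq_nonneg _ _
  rw [← Real.sqrt_mul' _ hn]
  refine Real.sqrt_le_sqrt ?_
  rw [h1_id hD hφt hΦs hΦκ hΦ0]
  have hi : Integrable (fun x => φ x ^ 2) :=
    int_of (R := 8) (hφ.continuous.pow 2) (fun x hx => by rw [zero_of hφt hx]; norm_num)
  have e1 : ∫ z in ball (0 : ℂ) 8, φ z ^ 2 * d z ≤ Cd * ∫ x, φ x ^ 2 := by
    by_cases hid : IntegrableOn (fun z => φ z ^ 2 * d z) (ball (0 : ℂ) 8)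
    · calc ∫ z in ball (0 : ℂ) 8, φ z ^ 2 * d z ≤ ∫ z in ball (0 : ℂ) 8, Cd * φ z ^ 2 := by
            refine setIntegral_mono_on hid (hi.integrableOn.const_mul _) measurableSet_ball ?_
            intro z hz
            have := mul_le_mul_of_nonneg_left (hd z hz) (sq_nonneg (φ z))
            linarith
        _ = Cd * ∫ z in ball (0 : ℂ) 8, φ z ^ 2 := integral_const_mul _ _
        _ ≤ Cd * ∫ x, φ x ^ 2 := by
            refine mul_le_mul_of_nonneg_left ?_ hCd
            exact setIntegral_le_integral hi (ae_of_all _ fun x => sq_nonneg _)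
    · rw [integral_undef hid]
      exact mul_nonneg hCd (integral_nonneg fun x => sq_nonneg _)
  have e2 := hF φ 0 8 (by norm_num) hφ1 (hφt.trans ball_subset_closedBall)
  have e3 := mul_le_mul_of_nonneg_left e2 hCd
  linarith

/-- the total mass in the disc -/
theorem mass_le (h5 : S_SMO) (hD : IsDisc X κ d) {h : M → ℝ} {lam ε : ℝ}
    {u : M → ℝ} (hh : X.Smooth h) (hh0 : ∀ x, 0 < h x) (hu : PSb X h lam ε u) :
    IntegrableOn (fun z => h (κ z) * Real.exp (u (κ z)) * d z) (ball (0 : ℂ) 8) ∧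
    ∫ z in ball (0 : ℂ) 8, h (κ z) * Real.exp (u (κ z)) * d z ≤ 1 := by
  have hc := h5 M X
  have hhc : Continuous h := hc.1 h hh
  have huc : Continuous u := hc.1 u hu.smooth
  have i1 : Integrable (fun x => h x * Real.exp (u x)) X.vol := int_cont X (by fun_prop)
  have j := hD.intg (fun x => h x * Real.exp (u x)) (ball 0 8) measurableSet_ball (Subset.refl _)
  refine ⟨j.1.1 i1.integrableOn, ?_⟩
  rw [← j.2, ← hu.norm]
  exact setIntegral_le_integral i1 (ae_of_all _ fun x => by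
    have := hh0 x
    simp only [Pi.zero_apply]
    positivity)

/-- the `L¹` distance in the disc -/
theorem L1_le (h5 : S_SMO) (hD : IsDisc X κ d) {cd : ℝ} (hcd : 0 < cd)
    (hd : ∀ z ∈ ball (0 : ℂ) 8, cd ≤ d z) {u : M → ℝ} (hu : X.Smooth u) {c A r : ℝ}
    (hr : r ≤ 8) (hA : ∫ x, |u x - c| ∂X.vol ≤ A) :
    IntegrableOn (fun z => |u (κ z) - c|) (ball (0 : ℂ) r) ∧
    ∫ z in ball (0 : ℂ) r, |u (κ z) - c| ≤ A / cd := by
  have hsub : ball (0 : ℂ) r ⊆ ball 0 8 := ball_subset_ball hr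
  have hc := h5 M X
  have huc : Continuous u := hc.1 u hu
  have i1 : Integrable (fun x => |u x - c|) X.vol := int_cont X (by fun_prop)
  have j := hD.intg (fun x => |u x - c|) (ball 0 r) measurableSet_ball hsub
  have j1 := j.1.1 i1.integrableOn
  have hcont : ContinuousOn (fun z => |u (κ z) - c|) (ball (0 : ℂ) r) :=
    (((huc.comp_continuousOn (hD.cont.mono hsub))).sub continuousOn_const).abs
  have hi : IntegrableOn (fun z => |u (κ z) - c|) (ball (0 : ℂ) r) := by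
    refine (j1.const_mul cd⁻¹).mono' (hcont.aestronglyMeasurable measurableSet_ball) ?_
    filter_upwards [ae_restrict_mem measurableSet_ball] with z hz
    rw [Real.norm_eq_abs, abs_abs, ← div_eq_inv_mul, le_div_iff₀ hcd]
    exact mul_le_mul_of_nonneg_left (hd z (hsub hz)) (abs_nonneg _)
  refine ⟨hi, ?_⟩
  rw [le_div_iff₀ hcd, ← integral_mul_const]
  calc ∫ z in ball (0 : ℂ) r, |u (κ z) - c| * cd ≤ ∫ z in ball (0 : ℂ) r, |u (κ z) - c| * d z := by
        refine setIntegral_mono_on (hi.mul_const _) j1 measurableSet_ball ?_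
        intro z hz
        exact mul_le_mul_of_nonneg_left (hd z (hsub hz)) (abs_nonneg _)
    _ = ∫ x in κ '' ball 0 r, |u x - c| ∂X.vol := j.2.symm
    _ ≤ ∫ x, |u x - c| ∂X.vol := setIntegral_le_integral i1 (ae_of_all _ fun x => abs_nonneg _)
    _ ≤ A := hA

end Surf

/-- linearity of the potential -/
theorem pot_sub (h3 : S_POTI) {a b : ℂ → ℝ} (ha : Continuous a) (hac : HasCompactSupport a)
    (hb : Continuous b) (hbc : HasCompactSupport b) (lam : ℝ) (x : ℂ) :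
    pot (fun y => a y - lam * b y) x = pot a x - lam * pot b x := by
  unfold pot
  have i1 := (h3 a ha hac).1 x
  have i2 := (h3 b hb hbc).1 x
  have e : ∀ y, Real.log ‖x - y‖ * (a y - lam * b y) =
      Real.log ‖x - y‖ * a y - lam * (Real.log ‖x - y‖ * b y) := fun y => by ring
  simp only [e]
  rw [integral_sub i1 (i2.const_mul _), integral_const_mul]
  ring

end Pool.Agent.W880.PS
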