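import Pool.Agent.W787.PS.StmB

/-!
Project PS: kernel estimates for the logarithmic potential
-/

set_option autoImplicit false

open MeasureTheory Set Metric Filter Topology
open scoped ContDiff

noncomputable section

namespace Pool.Agent.W880.PS

open Pool.Agent.W787.PS

theorem int_inv (R : ℝ) : IntegrableOn (fun z : ℂ => ‖z‖⁻¹) (ball 0 R) := by
  have h := (integrableOn_fun_norm_addHaar (E := ℂ) (volume : Measure ℂ)
    (f := fun y : ℝ => y⁻¹) (r := R)).2 ?_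
  · exact h
  · rw [Complex.finrank_real_complex]
    have h1 : IntegrableOn (fun _ : ℝ => (1 : ℝ)) (Ioo 0 R) := by
      rw [integrableOn_const_iff]
      right
      rw [Real.volume_Ioo]
      exact ENNReal.ofReal_lt_top
    refine h1.congr_fun ?_ measurableSet_Ioo
    intro x hx
    have hx0 : x ≠ 0 := hx.1.ne'
    simp only [smul_eq_mul]
    norm_num
    field_simp

/-- the mass of the kernel `1 / |z|` -/
def KK : ENNReal := ∫⁻ z in ball (0 : ℂ) 8, ENNReal.ofReal (‖z‖⁻¹)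

theorem KK_lt : KK < ⊤ := by
  unfold KK
  have h := (int_inv 8).2
  rw [HasFiniteIntegral] at h
  refine lt_of_le_of_lt (le_of_eq ?_) h
  refine lintegral_congr fun z => ?_
  rw [Real.enorm_eq_ofReal (by positivity)]

theorem ker_le {x : ℂ} (hx : x ∈ ball (0 : ℂ) 4) :
    ∫⁻ y in ball (0 : ℂ) 4, ENNReal.ofReal (‖x - y‖⁻¹) ≤ KK := by
  unfold KK
  have hmp : MeasurePreserving (fun y : ℂ => x - y) volume volume :=
    Measure.measurePreserving_sub_left volume x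
  rw [← hmp.setLIntegral_comp_preimage (s := ball (0 : ℂ) 8) measurableSet_ball
    (f := fun z : ℂ => ENNReal.ofReal (‖z‖⁻¹)) (by fun_prop)]
  refine lintegral_mono_set ?_
  intro y hy
  rw [mem_preimage, mem_ball_zero_iff]
  rw [mem_ball_zero_iff] at hx hy
  exact (norm_sub_le _ _).trans_lt (by linarith)

/-- the majorant of potentials and their gradients -/
def JJ (φ : ℂ → ℝ) (x : ℂ) : ENNReal :=
  ∫⁻ y in ball (0 : ℂ) 4, ENNReal.ofReal (‖x - y‖⁻¹) * ENNReal.ofReal |φ y|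

theorem JJ_sq_le {φ : ℂ → ℝ} (hφ : Measurable φ) {x : ℂ} (hx : x ∈ ball (0 : ℂ) 4) :
    JJ φ x ^ 2 ≤ KK * ∫⁻ y in ball (0 : ℂ) 4,
      ENNReal.ofReal (‖x - y‖⁻¹) * (ENNReal.ofReal |φ y|) ^ 2 := by
  have hk : Measurable (fun y : ℂ => ENNReal.ofReal (‖x - y‖⁻¹)) := by fun_prop
  have hf : Measurable (fun y : ℂ => ENNReal.ofReal |φ y|) := by fun_prop
  have h := ENNReal.lintegral_mul_le_Lp_mul_Lq (volume.restrict (ball (0 : ℂ) 4))
    (p := 2) (q := 2) ((Real.holderConjugate_iff).2 (by norm_num))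
    (f := fun y => (ENNReal.ofReal (‖x - y‖⁻¹)) ^ (1 / 2 : ℝ))
    (g := fun y => (ENNReal.ofReal (‖x - y‖⁻¹)) ^ (1 / 2 : ℝ) * ENNReal.ofReal |φ y|)
    (hk.pow_const _).aemeasurable ((hk.pow_const _).mul hf).aemeasurable
  have e1 : JJ φ x = ∫⁻ y in ball (0 : ℂ) 4, ((fun y => (ENNReal.ofReal (‖x - y‖⁻¹)) ^ (1 / 2 : ℝ)) *
      (fun y => (ENNReal.ofReal (‖x - y‖⁻¹)) ^ (1 / 2 : ℝ) * ENNReal.ofReal |φ y|)) y := by
    unfold JJ
    refine lintegral_congr fun y => ?_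
    rw [Pi.mul_apply, ← mul_assoc, ← ENNReal.rpow_add_of_nonneg _ _ (by norm_num) (by norm_num)]
    norm_num
  rw [← e1] at h
  have h2 := pow_le_pow_left' h 2
  refine h2.trans ?_
  rw [mul_pow, ← ENNReal.rpow_natCast, ← ENNReal.rpow_natCast, ← ENNReal.rpow_mul,
    ← ENNReal.rpow_mul]
  norm_num
  refine mul_le_mul' ?_ ?_
  · refine le_trans (le_of_eq ?_) (ker_le hx)
    refine lintegral_congr fun y => ?_
    rw [← ENNReal.rpow_natCast, ← ENNReal.rpow_mul]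
    norm_num
  · refine le_of_eq ?_
    refine lintegral_congr fun y => ?_
    rw [mul_pow]
    congr 1
    rw [← ENNReal.rpow_natCast, ← ENNReal.rpow_mul]
    norm_num

theorem JJ_L2 {φ : ℂ → ℝ} (hφ : Measurable φ) :
    ∫⁻ x in ball (0 : ℂ) 4, JJ φ x ^ 2 ≤ KK ^ 2 * ∫⁻ y, (ENNReal.ofReal |φ y|) ^ 2 := by
  have hf : Measurable (fun y : ℂ => ENNReal.ofReal |φ y|) := by fun_prop
  calc ∫⁻ x in ball (0 : ℂ) 4, JJ φ x ^ 2
      ≤ ∫⁻ x in ball (0 : ℂ) 4, KK * ∫⁻ y in ball (0 : ℂ) 4,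
          ENNReal.ofReal (‖x - y‖⁻¹) * (ENNReal.ofReal |φ y|) ^ 2 :=
        setLIntegral_mono' measurableSet_ball fun x hx => JJ_sq_le hφ hx
    _ = KK * ∫⁻ x in ball (0 : ℂ) 4, ∫⁻ y in ball (0 : ℂ) 4,
          ENNReal.ofReal (‖x - y‖⁻¹) * (ENNReal.ofReal |φ y|) ^ 2 :=
        lintegral_const_mul' _ _ KK_lt.ne
    _ = KK * ∫⁻ y in ball (0 : ℂ) 4, ∫⁻ x in ball (0 : ℂ) 4,
          ENNReal.ofReal (‖x - y‖⁻¹) * (ENNReal.ofReal |φ y|) ^ 2 := by
        rw [lintegral_lintegral_swap]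
        refine Measurable.aemeasurable ?_
        have h1 : Measurable (fun p : ℂ × ℂ => ENNReal.ofReal (‖p.1 - p.2‖⁻¹)) := by fun_prop
        have h2 : Measurable (fun p : ℂ × ℂ => (ENNReal.ofReal |φ p.2|) ^ 2) :=
          (hf.comp measurable_snd).pow_const 2
        exact h1.mul h2
    _ ≤ KK * ∫⁻ y in ball (0 : ℂ) 4, KK * (ENNReal.ofReal |φ y|) ^ 2 := by
        gcongr 1
        refine setLIntegral_mono' measurableSet_ball fun y hy => ?_
        rw [lintegral_mul_const _ (by fun_prop)]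
        gcongr 1
        refine le_trans (le_of_eq ?_) (ker_le hy)
        refine lintegral_congr fun x => ?_
        rw [norm_sub_rev]
    _ ≤ KK * ∫⁻ y, KK * (ENNReal.ofReal |φ y|) ^ 2 := by
        gcongr 1
        exact setLIntegral_le_lintegral _ _
    _ = KK ^ 2 * ∫⁻ y, (ENNReal.ofReal |φ y|) ^ 2 := by
        rw [lintegral_const_mul' _ _ KK_lt.ne, ← mul_assoc, sq]

end Pool.Agent.W880.PS
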