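import Pool.Agent.W880.PS.Pot

set_option autoImplicit false

open MeasureTheory Set Metric Filter Topology
open scoped ContDiff

noncomputable section

namespace Pool.Agent.W880.PS

open Pool.Agent.W787.PS

theorem int_log : Integrable ((ball (0 : ℂ) 8).indicator fun z => Real.log ‖z‖) := by
  rw [integrable_indicator_iff measurableSet_ball]
  refine ((int_inv 8).const_mul 65).mono'
    (Real.measurable_log.comp measurable_norm).aestronglyMeasurable ?_
  filter_upwards [ae_restrict_mem measurableSet_ball] with z hz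
  rw [mem_ball_zero_iff] at hz
  exact abs_log_le (norm_nonneg z) hz

theorem int_prod {F φ : ℂ → ℝ} (hF : Continuous F) (hFs : tsupport F ⊆ ball (0 : ℂ) 4)
    (hφ : Continuous φ) (hφs : tsupport φ ⊆ ball (0 : ℂ) 4) :
    Integrable (fun p : ℂ × ℂ => φ p.1 * (Real.log ‖p.1 - p.2‖ * F p.2))
      (volume.prod volume) := by
  have hFi : Integrable F := hF.integrable_of_hasCompactSupport (cs_of hFs)
  have h1 := Integrable.convolution_integrand (ContinuousLinearMap.mul ℝ ℝ) hFi int_log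
  obtain ⟨M, hM⟩ := (cs_of hφs).exists_bound_of_continuous hφ
  have h2 : Integrable (fun p : ℂ × ℂ => φ p.1 * ((ContinuousLinearMap.mul ℝ ℝ) (F p.2)
      (((ball (0 : ℂ) 8).indicator fun z => Real.log ‖z‖) (p.1 - p.2)))) (volume.prod volume) := by
    refine h1.bdd_mul (c := M) ?_ ?_
    · exact (hφ.comp continuous_fst).aestronglyMeasurable
    · exact ae_of_all _ fun p => hM p.1
  refine h2.congr (ae_of_all _ ?_)
  intro p
  simp only [ContinuousLinearMap.mul_apply']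
  by_cases h3 : p.1 ∈ ball (0 : ℂ) 4
  · by_cases h4 : p.2 ∈ ball (0 : ℂ) 4
    · have h5 : p.1 - p.2 ∈ ball (0 : ℂ) 8 := by
        rw [mem_ball_zero_iff] at h3 h4 ⊢
        exact (norm_sub_le _ _).trans_lt (by linarith)
      rw [indicator_of_mem h5]
      ring
    · rw [zero_of hFs h4]
      ring
  · rw [zero_of hφs h3]
    ring

theorem pot_symm {F φ : ℂ → ℝ} (hF : Continuous F) (hFs : tsupport F ⊆ ball (0 : ℂ) 4)
    (hφ : Continuous φ) (hφs : tsupport φ ⊆ ball (0 : ℂ) 4) :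
    ∫ x, φ x * pot F x = ∫ y, F y * pot φ y := by
  obtain ⟨c, hc⟩ : ∃ c : ℝ, c = -(1 / (2 * Real.pi)) := ⟨_, rfl⟩
  have e1 : ∀ x, φ x * pot F x = c * ∫ y, φ x * (Real.log ‖x - y‖ * F y) := by
    intro x
    unfold pot
    rw [integral_const_mul, ← hc]
    ring
  have e2 : ∀ y, F y * pot φ y = c * ∫ x, φ x * (Real.log ‖x - y‖ * F y) := by
    intro y
    unfold pot
    rw [← hc, mul_left_comm, ← integral_const_mul]
    congr 1
    refine integral_congr_ae (ae_of_all _ fun x => ?_)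
    simp only
    rw [norm_sub_rev]
    ring
  simp only [e1, e2]
  rw [integral_const_mul, integral_const_mul]
  congr 1
  exact integral_integral_swap (int_prod hF hFs hφ hφs)

/-- extension by zero -/
theorem ext_smooth {ζ f : ℂ → ℝ} (hζ : ContDiff ℝ ∞ ζ) (hζs : tsupport ζ ⊆ ball (0 : ℂ) 4)
    (hf : ContDiffOn ℝ ∞ f (ball 0 8)) : ContDiff ℝ ∞ (fun y => ζ y * f y) := by
  rw [contDiff_iff_contDiffAt]
  intro x
  by_cases hx : x ∈ ball (0 : ℂ) 8
  · exact hζ.contDiffAt.mul (hf.contDiffAt (isOpen_ball.mem_nhds hx))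
  · have hx' : x ∉ tsupport ζ := fun h => hx (ball_subset_ball (by norm_num) (hζs h))
    have h1 : ∀ᶠ y in 𝓝 x, ζ y = 0 := by
      have := (isClosed_tsupport ζ).isOpen_compl.mem_nhds hx'
      filter_upwards [this] with y hy
      exact image_eq_zero_of_notMem_tsupport hy
    have h2 : (fun y => ζ y * f y) =ᶠ[𝓝 x] fun _ => 0 := by
      filter_upwards [h1] with y hy
      rw [hy, zero_mul]
    exact contDiffAt_const.congr_of_eventuallyEq h2

theorem ts_mul {ζ g : ℂ → ℝ} {R : ℝ} (h : tsupport ζ ⊆ ball (0 : ℂ) R) :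
    tsupport (fun y => ζ y * g y) ⊆ ball (0 : ℂ) R :=
  (tsupport_mul_subset_left (f := ζ) (g := g)).trans h

/-- bound of `nsq` of a product -/
theorem nsq_mul_le {a b : ℂ → ℝ} {x : ℂ} (ha : DifferentiableAt ℝ a x)
    (hb : DifferentiableAt ℝ b x) :
    nsq (fun y => a y * b y) x ≤ 2 * (b x ^ 2 * nsq a x) + 2 * (a x ^ 2 * nsq b x) := by
  have h : ∀ v, fderiv ℝ (fun y => a y * b y) x v = a x * fderiv ℝ b x v + b x * fderiv ℝ a x v := by
    intro v
    have := fderiv_fun_mul ha hb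
    rw [this]
    simp
  unfold nsq
  rw [h, h]
  nlinarith [sq_nonneg (a x * fderiv ℝ b x 1 - b x * fderiv ℝ a x 1),
    sq_nonneg (a x * fderiv ℝ b x Complex.I - b x * fderiv ℝ a x Complex.I)]

/-- a bound for `nsq` -/
theorem nsq_bdd {a : ℂ → ℝ} (ha : ContDiff ℝ 1 a) (hc : HasCompactSupport a) :
    ∃ B : ℝ, 0 < B ∧ ∀ x, nsq a x ≤ B := by
  have h1 : HasCompactSupport (nsq a) := by
    refine HasCompactSupport.of_support_subset_isCompact hc ?_
    intro x hx
    by_contra hcon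
    exact hx (nsq_zero hcon)
  obtain ⟨M, hM⟩ := h1.exists_bound_of_continuous (nsq_cont ha)
  refine ⟨|M| + 1, by positivity, fun x => ?_⟩
  have := (le_abs_self _).trans (hM x)
  have := le_abs_self M
  linarith

theorem gradψ (h1 : S_POTD) (h3 : S_POTI) {ζ : ℂ → ℝ} (hζ : ContDiff ℝ ∞ ζ)
    (hζs : tsupport ζ ⊆ ball (0 : ℂ) 4) (h01 : ∀ x, 0 ≤ ζ x ∧ ζ x ≤ 1) :
    ∃ C : ℝ, 0 < C ∧ ∀ φ : ℂ → ℝ, ContDiff ℝ ∞ φ → tsupport φ ⊆ ball (0 : ℂ) 4 →
      ∫ x, nsq (fun y => ζ y * pot φ y) x ≤ C * ∫ x, φ x ^ 2 := by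
  obtain ⟨B, hB, hBx⟩ := nsq_bdd (hζ.of_le (by exact_mod_cast le_top)) (cs_of hζs)
  refine ⟨2 * B * (65 ^ 2 * KK.toReal ^ 2) + 4 * KK.toReal ^ 2 + 1, by positivity, ?_⟩
  intro φ hφ hφs
  have hp := pot_smooth h1 hφ (cs_of hφs)
  have hp1 : ContDiff ℝ 1 (pot φ) := hp.of_le (by exact_mod_cast le_top)
  have hζ1 : ContDiff ℝ 1 ζ := hζ.of_le (by exact_mod_cast le_top)
  have hφ1 : ContDiff ℝ 1 φ := hφ.of_le (by exact_mod_cast le_top)
  have hs : tsupport (fun y => ζ y * pot φ y) ⊆ ball (0 : ℂ) 4 := ts_mul hζs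
  have hψ1 : ContDiff ℝ 1 (fun y => ζ y * pot φ y) := hζ1.mul hp1
  have A1 := L2_le hφ.continuous hφs hp.continuous (by norm_num : (0 : ℝ) ≤ 65)
    (fun x hx => pot_le hφs hx)
  have hfd : ∀ v : ℂ, Continuous (fun x => fderiv ℝ (pot φ) x v) := by
    intro v
    have := hp1.continuous_fderiv one_ne_zero
    fun_prop
  have A2 := L2_le hφ.continuous hφs (hfd 1) (by norm_num : (0 : ℝ) ≤ 1)
    (fun x _ => dpot_le h1 hφ1 hφs x (by simp))
  have A3 := L2_le hφ.continuous hφs (hfd Complex.I) (by norm_num : (0 : ℝ) ≤ 1)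
    (fun x _ => dpot_le h1 hφ1 hφs x (by simp))
  have ci : ∀ g : ℂ → ℝ, Continuous g → IntegrableOn g (ball (0 : ℂ) 4) := fun g hg =>
    (hg.continuousOn.integrableOn_compact (isCompact_closedBall (0 : ℂ) 4)).mono_set
      ball_subset_closedBall
  have e1 : ∫ x, nsq (fun y => ζ y * pot φ y) x
      = ∫ x in ball (0 : ℂ) 4, nsq (fun y => ζ y * pot φ y) x := by
    rw [setIntegral_eq_integral_of_forall_compl_eq_zero]
    intro x hx
    exact nsq_zero fun h => hx (hs h)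
  have e2 : ∫ x in ball (0 : ℂ) 4, nsq (fun y => ζ y * pot φ y) x ≤
      ∫ x in ball (0 : ℂ) 4, (2 * B * pot φ x ^ 2 + (2 * fderiv ℝ (pot φ) x 1 ^ 2 +
        2 * fderiv ℝ (pot φ) x Complex.I ^ 2)) := by
    refine setIntegral_mono_on (ci _ (nsq_cont hψ1)) (ci _ ?_) measurableSet_ball ?_
    · have c1 := hp.continuous
      have c2 := hfd 1
      have c3 := hfd Complex.I
      fun_prop
    · intro x _
      refine (nsq_mul_le (hζ1.differentiable one_ne_zero).differentiableAt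
        (hp1.differentiable one_ne_zero).differentiableAt).trans ?_
      have hz : ζ x ^ 2 ≤ 1 := by
        obtain ⟨a, b⟩ := h01 x
        nlinarith
      have h4 : pot φ x ^ 2 * nsq ζ x ≤ pot φ x ^ 2 * B :=
        mul_le_mul_of_nonneg_left (hBx x) (sq_nonneg _)
      have h5 : ζ x ^ 2 * nsq (pot φ) x ≤ nsq (pot φ) x :=
        mul_le_of_le_one_left (nsq_nonneg _ _) hz
      have h6 : nsq (pot φ) x = fderiv ℝ (pot φ) x 1 ^ 2 + fderiv ℝ (pot φ) x Complex.I ^ 2 := rfl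
      linarith
  have e3 : ∫ x in ball (0 : ℂ) 4, (2 * B * pot φ x ^ 2 + (2 * fderiv ℝ (pot φ) x 1 ^ 2 +
        2 * fderiv ℝ (pot φ) x Complex.I ^ 2)) =
      2 * B * (∫ x in ball (0 : ℂ) 4, pot φ x ^ 2) +
        (2 * (∫ x in ball (0 : ℂ) 4, fderiv ℝ (pot φ) x 1 ^ 2) +
        2 * ∫ x in ball (0 : ℂ) 4, fderiv ℝ (pot φ) x Complex.I ^ 2) := by
    have i1 : IntegrableOn (fun x => 2 * B * pot φ x ^ 2) (ball (0 : ℂ) 4) :=
      ci _ (continuous_const.mul (hp.continuous.pow 2))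
    have i2 : IntegrableOn (fun x => 2 * fderiv ℝ (pot φ) x 1 ^ 2) (ball (0 : ℂ) 4) :=
      ci _ (continuous_const.mul ((hfd 1).pow 2))
    have i3 : IntegrableOn (fun x => 2 * fderiv ℝ (pot φ) x Complex.I ^ 2) (ball (0 : ℂ) 4) :=
      ci _ (continuous_const.mul ((hfd Complex.I).pow 2))
    have i23 : IntegrableOn (fun x => 2 * fderiv ℝ (pot φ) x 1 ^ 2 +
        2 * fderiv ℝ (pot φ) x Complex.I ^ 2) (ball (0 : ℂ) 4) := i2.add i3
    rw [integral_add i1 i23, integral_add i2 i3, integral_const_mul, integral_const_mul,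
      integral_const_mul]
  rw [e1]
  refine e2.trans ?_
  rw [e3]
  have hI : 0 ≤ ∫ x, φ x ^ 2 := integral_nonneg fun x => sq_nonneg _
  have m1 := mul_le_mul_of_nonneg_left A1 (by positivity : 0 ≤ 2 * B)
  calc _ ≤ 2 * B * (65 ^ 2 * KK.toReal ^ 2 * ∫ x, φ x ^ 2) +
        (2 * (1 ^ 2 * KK.toReal ^ 2 * ∫ x, φ x ^ 2) + 2 * (1 ^ 2 * KK.toReal ^ 2 * ∫ x, φ x ^ 2)) := by
        linarith
    _ ≤ _ := by nlinarith

end Pool.Agent.W880.PS
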