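import Pool.Agent.W880.PS.Ker

set_option autoImplicit false

open MeasureTheory Set Metric Filter Topology
open scoped ContDiff

noncomputable section

namespace Pool.Agent.W880.PS

open Pool.Agent.W787.PS

theorem cs_of {φ : ℂ → ℝ} {R : ℝ} (h : tsupport φ ⊆ ball (0 : ℂ) R) : HasCompactSupport φ :=
  HasCompactSupport.of_support_subset_isCompact (isCompact_closedBall (0 : ℂ) R)
    ((subset_tsupport φ).trans (h.trans ball_subset_closedBall))

theorem zero_of {φ : ℂ → ℝ} {R : ℝ} (h : tsupport φ ⊆ ball (0 : ℂ) R) {x : ℂ}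
    (hx : x ∉ ball (0 : ℂ) R) : φ x = 0 := by
  by_contra hne
  exact hx (h (subset_tsupport φ hne))

theorem nsq_cont {f : ℂ → ℝ} (hf : ContDiff ℝ 1 f) : Continuous (nsq f) := by
  have h := hf.continuous_fderiv one_ne_zero
  unfold nsq
  fun_prop

theorem gdot_cont {f g : ℂ → ℝ} (hf : ContDiff ℝ 1 f) (hg : ContDiff ℝ 1 g) :
    Continuous (gdot f g) := by
  have h := hf.continuous_fderiv one_ne_zero
  have h' := hg.continuous_fderiv one_ne_zero
  unfold gdot
  fun_prop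

theorem nsq_nonneg (f : ℂ → ℝ) (x : ℂ) : 0 ≤ nsq f x := by unfold nsq; positivity

theorem nsq_zero {f : ℂ → ℝ} {x : ℂ} (hx : x ∉ tsupport f) : nsq f x = 0 := by
  unfold nsq
  rw [fderiv_of_notMem_tsupport ℝ hx]
  simp

theorem gdot_zero {f g : ℂ → ℝ} {x : ℂ} (hx : x ∉ tsupport g) : gdot f g x = 0 := by
  unfold gdot
  rw [fderiv_of_notMem_tsupport ℝ hx]
  simp

theorem abs_log_le {s : ℝ} (h0 : 0 ≤ s) (h8 : s < 8) : |Real.log s| ≤ 65 * s⁻¹ := by
  rcases h0.eq_or_lt with h | h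
  · rw [← h]; simp
  · have h1 : Real.log s ≤ s := (Real.log_le_sub_one_of_pos h).trans (by linarith)
    have h2 : -Real.log s ≤ s⁻¹ := by
      rw [← Real.log_inv]
      exact (Real.log_le_sub_one_of_pos (by positivity)).trans (by linarith)
    have h3 : s ≤ 64 * s⁻¹ := by
      rw [← div_eq_mul_inv, le_div_iff₀ h]; nlinarith
    have h4 : 0 < s⁻¹ := by positivity
    rw [abs_le]
    constructor <;> linarith

/-- bound of a potential-like integral -/
theorem int_le {φ k : ℂ → ℝ} (hφ : tsupport φ ⊆ ball (0 : ℂ) 4) {x : ℂ} {c : ℝ} (hc : 0 ≤ c)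
    (hk : ∀ y ∈ ball (0 : ℂ) 4, |k y| ≤ c * ‖x - y‖⁻¹) :
    ENNReal.ofReal |∫ y, k y * φ y| ≤ ENNReal.ofReal c * JJ φ x := by
  rw [← Real.norm_eq_abs, ofReal_norm]
  refine (enorm_integral_le_lintegral_enorm _).trans ?_
  unfold JJ
  rw [← lintegral_const_mul' _ _ ENNReal.ofReal_ne_top, ← lintegral_indicator measurableSet_ball]
  refine lintegral_mono fun y => ?_
  by_cases hy : y ∈ ball (0 : ℂ) 4
  · rw [indicator_of_mem hy, enorm_mul, ← mul_assoc, ← ENNReal.ofReal_mul hc]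
    gcongr
    · rw [Real.enorm_eq_ofReal_abs]
      exact ENNReal.ofReal_le_ofReal (hk y hy)
    · rw [Real.enorm_eq_ofReal_abs]
  · rw [indicator_of_notMem hy, zero_of hφ hy, mul_zero, enorm_zero]

theorem pot_le {φ : ℂ → ℝ} (hφ : tsupport φ ⊆ ball (0 : ℂ) 4) {x : ℂ} (hx : x ∈ ball (0 : ℂ) 4) :
    ENNReal.ofReal |pot φ x| ≤ ENNReal.ofReal 65 * JJ φ x := by
  have h1 : |pot φ x| ≤ |∫ y, Real.log ‖x - y‖ * φ y| := by
    unfold pot
    rw [abs_mul]
    refine mul_le_of_le_one_left (abs_nonneg _) ?_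
    rw [abs_neg, abs_of_pos (by positivity), div_le_one (by positivity)]
    have := Real.pi_gt_three
    linarith
  refine (ENNReal.ofReal_le_ofReal h1).trans ?_
  refine int_le hφ (by norm_num) ?_
  intro y hy
  refine abs_log_le (norm_nonneg _) ?_
  rw [mem_ball_zero_iff] at hx hy
  exact (norm_sub_le _ _).trans_lt (by linarith)

theorem dpot_le (h1 : S_POTD) {φ : ℂ → ℝ} (hs : ContDiff ℝ 1 φ)
    (hφ : tsupport φ ⊆ ball (0 : ℂ) 4) (x : ℂ) {v : ℂ} (hv : ‖v‖ = 1) :
    ENNReal.ofReal |fderiv ℝ (pot φ) x v| ≤ ENNReal.ofReal 1 * JJ φ x := by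
  obtain ⟨-, -, -, h4⟩ := h1 φ hs (cs_of hφ)
  have h5 : |fderiv ℝ (pot φ) x v| ≤ |∫ y, inner ℝ (x - y) v / ‖x - y‖ ^ 2 * φ y| := by
    rw [h4, abs_mul]
    refine mul_le_of_le_one_left (abs_nonneg _) ?_
    rw [abs_neg, abs_of_pos (by positivity), div_le_one (by positivity)]
    have := Real.pi_gt_three
    linarith
  refine (ENNReal.ofReal_le_ofReal h5).trans ?_
  refine int_le hφ (by norm_num) ?_
  intro y _
  rw [one_mul, abs_div, abs_of_nonneg (by positivity : 0 ≤ ‖x - y‖ ^ 2)]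
  have h6 : |inner ℝ (x - y) v| ≤ ‖x - y‖ := by
    have := abs_real_inner_le_norm (x - y) v
    rwa [hv, mul_one] at this
  rcases eq_or_ne ‖x - y‖ 0 with h | h
  · rw [h]; simp
  · have h7 : 0 < ‖x - y‖ := lt_of_le_of_ne (norm_nonneg _) (Ne.symm h)
    rw [div_le_iff₀ (by positivity)]
    have : ‖x - y‖⁻¹ * ‖x - y‖ ^ 2 = ‖x - y‖ := by field_simp
    rw [this]
    exact h6

/-- from the pointwise bound to the `L²` bound -/
theorem L2_le {φ g : ℂ → ℝ} (hφc : Continuous φ) (hφ : tsupport φ ⊆ ball (0 : ℂ) 4)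
    (hg : Continuous g) {c : ℝ} (hc : 0 ≤ c)
    (h : ∀ x ∈ ball (0 : ℂ) 4, ENNReal.ofReal |g x| ≤ ENNReal.ofReal c * JJ φ x) :
    ∫ x in ball (0 : ℂ) 4, g x ^ 2 ≤ c ^ 2 * KK.toReal ^ 2 * ∫ x, φ x ^ 2 := by
  have hint : IntegrableOn (fun x => g x ^ 2) (ball (0 : ℂ) 4) :=
    ((hg.pow 2).continuousOn.integrableOn_compact (isCompact_closedBall (0 : ℂ) 4)).mono_set
      ball_subset_closedBall
  have hφi : Integrable (fun x => φ x ^ 2) := by
    refine (hφc.pow 2).integrable_of_hasCompactSupport ?_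
    have := (cs_of hφ).comp_left (g := fun t : ℝ => t ^ 2) (by simp)
    exact this
  have h1 : ENNReal.ofReal (∫ x in ball (0 : ℂ) 4, g x ^ 2) ≤
      ENNReal.ofReal (c ^ 2 * KK.toReal ^ 2 * ∫ x, φ x ^ 2) := by
    rw [ofReal_integral_eq_lintegral_ofReal hint (ae_of_all _ fun x => sq_nonneg _)]
    calc ∫⁻ x in ball (0 : ℂ) 4, ENNReal.ofReal (g x ^ 2)
        ≤ ∫⁻ x in ball (0 : ℂ) 4, (ENNReal.ofReal c) ^ 2 * JJ φ x ^ 2 := by
          refine setLIntegral_mono' measurableSet_ball fun x hx => ?_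
          rw [← sq_abs, ENNReal.ofReal_pow (abs_nonneg _), ← mul_pow]
          exact pow_le_pow_left' (h x hx) 2
      _ = (ENNReal.ofReal c) ^ 2 * ∫⁻ x in ball (0 : ℂ) 4, JJ φ x ^ 2 :=
          lintegral_const_mul' _ _ (by simp)
      _ ≤ (ENNReal.ofReal c) ^ 2 * (KK ^ 2 * ∫⁻ y, (ENNReal.ofReal |φ y|) ^ 2) := by
          gcongr
          exact JJ_L2 hφc.measurable
      _ = ENNReal.ofReal (c ^ 2 * KK.toReal ^ 2 * ∫ x, φ x ^ 2) := by
          rw [ENNReal.ofReal_mul (by positivity), ENNReal.ofReal_mul (by positivity),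
            ENNReal.ofReal_pow hc, ENNReal.ofReal_pow ENNReal.toReal_nonneg,
            ENNReal.ofReal_toReal KK_lt.ne, ofReal_integral_eq_lintegral_ofReal hφi
            (ae_of_all _ fun x => sq_nonneg _), mul_assoc]
          congr 2
          refine lintegral_congr fun x => ?_
          rw [← ENNReal.ofReal_pow (abs_nonneg _), sq_abs]
  exact (ENNReal.ofReal_le_ofReal_iff (by positivity)).1 h1

/-- potentials of smooth functions are smooth -/
theorem pot_smooth (h1 : S_POTD) {F : ℂ → ℝ} (hF : ContDiff ℝ ∞ F) (hc : HasCompactSupport F) :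
    ContDiff ℝ ∞ (pot F) := by
  rw [contDiff_infty]
  intro n
  induction n generalizing F with
  | zero =>
    have h := (h1 F (hF.of_le (by exact_mod_cast le_top)) hc).1
    exact h.of_le (by simp)
  | succ n ih =>
    have h := h1 F (hF.of_le (by exact_mod_cast le_top)) hc
    push_cast
    rw [contDiff_succ_iff_fderiv_apply]
    refine ⟨h.1.differentiable (by norm_num), ?_, ?_⟩
    · intro hn
      exact absurd hn (by simp)
    · intro v
      have e : (fun x => fderiv ℝ (pot F) x v) = pot (fun y => fderiv ℝ F y v) :=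
        funext fun x => h.2.1 x v
      rw [e]
      refine ih ?_ ?_
      · exact (contDiff_infty_iff_fderiv.1 hF).2.clm_apply contDiff_const
      · exact hc.fderiv_apply ℝ v

end Pool.Agent.W880.PS
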